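import Pool.Agent.helper64.NQ.Spec

/-!
# Row nq:GNA, the number of projective characters of a `p'`-group
-/

set_option autoImplicit false

namespace Pool.Agent.NQ

open Pool.Agent.helper58.DC Pool.Agent.DI Pool.Agent.DR

theorem GNA (hGNC : GNC_stmt) (hGN1 : GN1_stmt) (hKQR : KQR_stmt) (hOMA : OMA_stmt) :
    GNA_stmt := by
  intro Q _ _ hc N β hβ hex hinv p _ hp j
  have hcN : ∀ x ∈ N, ∀ y ∈ N, x * y = y * x := fun x _ y _ => hc x y
  have hval : ∀ (σ : Q → ℂ) (k : ℕ), PIrr N β σ k → padicValNat p k = 0 := by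
    intro σ k hσ
    apply padicValNat.eq_zero_of_not_dvd
    intro hdvd
    apply hp
    have h1 := (hGN1 Q N hcN β hβ σ k hσ).2.2
    rw [← h1]
    exact Dvd.dvd.mul_right (Dvd.dvd.pow hdvd two_ne_zero) _
  by_cases hj : j = 0
  · rw [if_pos hj]
    have hcoc : CocOn N β := by
      obtain ⟨h1, h2, h3⟩ := hβ
      exact ⟨fun a _ b _ c _ => h1 a b c, fun a _ => ⟨h2 a, h3 a⟩⟩
    rw [hKQR Q N (om β) (hOMA Q N hcN β hcoc)]
    have h2 : GN N β (fun k => (padicValNat p k : ℤ) = j) = GN N β (fun _ => True) := by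
      unfold GN
      congr 2
      ext σ
      constructor
      · rintro ⟨k, hk, -, hk2⟩
        exact ⟨k, hk, trivial, hk2⟩
      · rintro ⟨k, hk, -, hk2⟩
        refine ⟨k, hk, ?_, hk2⟩
        show (padicValNat p k : ℤ) = j
        rw [hval σ k hk, hj]
        rfl
    rw [h2, (hGNC Q hc N β hβ hex hinv).2]
  · rw [if_neg hj]
    have h2 : GN N β (fun k => (padicValNat p k : ℤ) = j) = 0 := by
      unfold GN
      rw [Nat.card_eq_zero]
      left
      refine ⟨?_⟩
      rintro ⟨σ, k, hk, hk1, -⟩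
      apply hj
      have hk1' : (padicValNat p k : ℤ) = j := hk1
      rw [← hk1', hval σ k hk]
      rfl
    rw [h2, Nat.cast_zero, mul_zero]

end Pool.Agent.NQ
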